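import Pool.Agent.KS6_21.HZ.Main

/-!
# Hurwitz equivalence with one factorization is hard for the recursively enumerable sets

The surface is the closed oriented surface `Σ` of genus six; mapping classes are outer
automorphisms of its fundamental group (Dehn, Nielsen, Baer). The input of an algorithm is a list of
names of positive Dehn twists, as in the library files on this problem, where Hurwitz equivalence
and equivalence up to Hurwitz moves and global conjugation are proved to be undecidable.

Here it is shown that one factorization `τ` serves at once for both questions, for all relations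
between them and for all recursively enumerable sets: for every recursively enumerable set `A` of
natural numbers there is a computable sequence `X_n` of factorizations of the identity, with the
same number of twists as `τ`, such that `X_n` is Hurwitz equivalent to `τ` if `n ∈ A`, and `X_n` is
not even equivalent to `τ` up to Hurwitz moves and global conjugation by outer automorphisms
(orientation-reversing classes included) if `n ∉ A`. So the set of the
factorizations which are Hurwitz equivalent to `τ` and the set of those which are not equivalent
to `τ` up to Hurwitz moves and conjugation cannot be separated by an algorithm, and no relation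
between Hurwitz equivalence and equivalence up to Hurwitz moves and conjugation is decidable, even
for factorizations of one fixed length.

The new step is a finitely presented group with a universal word problem: the halting problem of
all programs is reduced to its word problem, and every recursively enumerable set is reduced to
the halting problem by the s-m-n theorem.
-/

set_option autoImplicit false

namespace Pool.Agent.Results.MP_1b0330_gt.UniversalInstances

open Pool.Agent.Y524H Pool.Agent.T6.H32.HC Pool.Agent.KS6_21.HZ

/-- There is a factorization `τ` of the identity into positive Dehn twists in the mapping class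
group of the closed surface of genus six with the following properties.
(1) For every recursively enumerable set `p` there is a computable sequence of factorizations
`X n`, of the same length as `τ`, with `X n` Hurwitz equivalent to `τ` if `p n` holds, and `X n` not
equivalent to `τ` up to Hurwitz moves and global conjugation, by elements of any group `Γ` of
mapping classes, if `p n` does not hold.
(2) No algorithm separates the factorizations of the length of `τ` which are Hurwitz equivalent to
`τ` from those which are not equivalent to `τ` up to Hurwitz moves and global conjugation.
(3) No relation `E` between Hurwitz equivalence and equivalence up to Hurwitz moves and global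
conjugation is decidable on the factorizations of the length of `τ`.
(4) Q1: Hurwitz equivalence is undecidable. (5) Q2: for every group `Γ` of mapping classes,
equivalence up to Hurwitz moves and global conjugation by elements of `Γ` is undecidable. -/
theorem result : ∃ τ : List Entry, IsFactorization τ ∧
    (∀ p : ℕ → Prop, REPred p → ∃ X : ℕ → List Entry, Computable X ∧
      (∀ n, IsFactorization (X n) ∧ (X n).length = τ.length) ∧
      (∀ n, p n → HurwitzEquiv (τ.map dehn) ((X n).map dehn)) ∧
      ∀ n, ¬ p n → ∀ Γ : Subgroup OutPi, ¬ ConjEquiv Γ (τ.map dehn) ((X n).map dehn)) ∧
    (¬ ∃ f : List Entry → Bool, Computable f ∧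
      ∀ x : List Entry, IsFactorization x → x.length = τ.length →
        (HurwitzEquiv (τ.map dehn) (x.map dehn) → f x = true) ∧
        (f x = true → ConjEquiv ⊤ (τ.map dehn) (x.map dehn))) ∧
    (∀ E : List OutPi → List OutPi → Prop, (∀ s t, HurwitzEquiv s t → E s t) →
      (∀ s t, E s t → ConjEquiv ⊤ s t) →
      ¬ ∃ f : List Entry × List Entry → Bool, Computable f ∧
        ∀ x y : List Entry, IsFactorization x → IsFactorization y →
          x.length = τ.length → y.length = τ.length →
          (f (x, y) = true ↔ E (x.map dehn) (y.map dehn))) ∧
    (¬ ∃ f : List Entry × List Entry → Bool, Computable f ∧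
      ∀ x y : List Entry, IsFactorization x → IsFactorization y →
        (f (x, y) = true ↔ HurwitzEquiv (x.map dehn) (y.map dehn))) ∧
    ∀ Γ : Subgroup OutPi, ¬ ∃ f : List Entry × List Entry → Bool, Computable f ∧
      ∀ x y : List Entry, IsFactorization x → IsFactorization y →
        (f (x, y) = true ↔ ConjEquiv Γ (x.map dehn) (y.map dehn)) := by
  obtain ⟨τ, hτ, h1⟩ := hard
  have h2 : ¬ ∃ f : List Entry → Bool, Computable f ∧
      ∀ x : List Entry, IsFactorization x → x.length = τ.length →
        (HurwitzEquiv (τ.map dehn) (x.map dehn) → f x = true) ∧
        (f x = true → ConjEquiv ⊤ (τ.map dehn) (x.map dehn)) := by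
    rintro ⟨f, hf, hfx⟩
    obtain ⟨p, hp, hn⟩ := exists_re
    obtain ⟨X, hX, hX1, hX2, hX3⟩ := h1 p hp
    apply hn
    have hc : Computable (fun n => f (X n)) := hf.comp hX
    have hiff : ∀ n, f (X n) = true ↔ p n := by
      intro n
      have h := hfx _ (hX1 n).1 (hX1 n).2
      constructor
      · intro h4
        by_contra hpn
        exact hX3 n hpn ⊤ (h.2 h4)
      · intro hpn
        exact h.1 (hX2 n hpn)
    have hcp : ComputablePred (fun n => f (X n) = true) :=
      ⟨fun n => inferInstance, hc.of_eq fun n => by simp⟩
    exact hcp.of_eq hiff
  have h3 : ∀ E : List OutPi → List OutPi → Prop, (∀ s t, HurwitzEquiv s t → E s t) →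
      (∀ s t, E s t → ConjEquiv ⊤ s t) →
      ¬ ∃ f : List Entry × List Entry → Bool, Computable f ∧
        ∀ x y : List Entry, IsFactorization x → IsFactorization y →
          x.length = τ.length → y.length = τ.length →
          (f (x, y) = true ↔ E (x.map dehn) (y.map dehn)) := by
    rintro E hE1 hE2 ⟨f, hf, hfx⟩
    refine h2 ⟨fun x => f (τ, x), hf.comp (Computable.pair (Computable.const τ) Computable.id),
      fun x hx hl => ⟨fun h => ?_, fun h => ?_⟩⟩
    · exact (hfx τ x hτ hx rfl hl).2 (hE1 _ _ h)
    · exact hE2 _ _ ((hfx τ x hτ hx rfl hl).1 h)
  refine ⟨τ, hτ, h1, h2, h3, ?_, ?_⟩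
  · rintro ⟨f, hf, hfx⟩
    exact h3 HurwitzEquiv (fun _ _ h => h) (fun _ _ h => ConjEquiv.of_hurwitz h)
      ⟨f, hf, fun x y hx hy _ _ => hfx x y hx hy⟩
  · rintro Γ ⟨f, hf, hfx⟩
    exact h3 (ConjEquiv Γ) (fun _ _ h => ConjEquiv.of_hurwitz h)
      (fun _ _ h => conjEquiv_mono le_top h) ⟨f, hf, fun x y hx hy _ _ => hfx x y hx hy⟩

end Pool.Agent.Results.MP_1b0330_gt.UniversalInstances
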